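import Mathlib

set_option autoImplicit false

/-!
Mycielski's theorem on independent Cantor sets for countably many relations of arbitrary finite
arities.
-/

namespace Pool.Agent.Q302.NH

open Set TopologicalSpace Filter Topology

theorem finite_choice {G : Type*} [MetricSpace G] [CompleteSpace G] {ι : Type*}
    [Fintype ι] {k : ℕ} (W : Set (Fin k → G)) (hWo : IsOpen W) (hWd : Dense W)
    (y0 : ι → G) (ε : ℝ) (hε : 0 < ε) :
    ∃ y : ι → G, (∀ i, dist (y i) (y0 i) < ε) ∧
      ∀ s : Fin k → ι, Function.Injective s → (fun i => y (s i)) ∈ W := by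
  classical
  let D : (Fin k → ι) → Set (ι → G) := fun s => {y | Function.Injective s → (fun i => y (s i)) ∈ W}
  have hcont : ∀ s : Fin k → ι, Continuous (fun (y : ι → G) (i : Fin k) => y (s i)) := fun s =>
    continuous_pi fun i => continuous_apply _
  have hDo : ∀ s, IsOpen (D s) := by
    intro s
    by_cases hs : Function.Injective s
    · have : D s = (fun (y : ι → G) (i : Fin k) => y (s i)) ⁻¹' W := by
        ext y; simp [D, hs]
      rw [this]
      exact hWo.preimage (hcont s)
    · have : D s = univ := by
        ext y; simp [D, hs]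
      rw [this]; exact isOpen_univ
  have hDd : ∀ s, Dense (D s) := by
    intro s
    by_cases hs : Function.Injective s
    · intro y
      rw [Metric.mem_closure_iff]
      intro δ hδ
      obtain ⟨w, hw, hwd⟩ := Metric.mem_closure_iff.1 (hWd (fun i => y (s i))) δ hδ
      refine ⟨Function.extend s w y, ?_, ?_⟩
      · intro _
        have : (fun i => Function.extend s w y (s i)) = w := by
          funext i
          exact hs.extend_apply _ _ _
        rw [this]
        exact hw
      · rw [dist_pi_lt_iff hδ]
        rw [dist_pi_lt_iff hδ] at hwd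
        intro i
        by_cases h1 : ∃ j, s j = i
        · obtain ⟨j, rfl⟩ := h1
          rw [hs.extend_apply]
          exact hwd j
        · rw [Function.extend_apply' _ _ _ h1, dist_self]
          exact hδ
    · have : D s = univ := by
        ext y; simp [D, hs]
      rw [this]; exact dense_univ
  have hd := dense_iInter_of_isOpen hDo hDd
  obtain ⟨y, hy1, hy2⟩ := Metric.mem_closure_iff.1 (hd y0) ε hε
  refine ⟨y, fun i => ?_, fun s hs => mem_iInter.1 hy1 s hs⟩
  rw [dist_pi_lt_iff hε] at hy2
  rw [dist_comm]
  exact hy2 i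

theorem mycielski {G : Type*} [MetricSpace G] [CompleteSpace G] [Nonempty G]
    (k : ℕ → ℕ) (W : ∀ n, Set (Fin (k n) → G)) (hWo : ∀ n, IsOpen (W n)) (hWd : ∀ n, Dense (W n)) :
    ∃ h : (ℕ → Bool) → G, Continuous h ∧
      ∀ n, ∀ b : Fin (k n) → (ℕ → Bool), Function.Injective b → (fun i => h (b i)) ∈ W n := by
  classical
  let K : ℕ × ℕ → ∀ n, Set (Fin (k n) → (ℕ → Bool)) := fun p n =>
    {b | ∀ i j, i ≠ j → ∃ l < p.2, b i l ≠ b j l}
  let O : ℕ × ℕ → Set C(ℕ → Bool, G) := fun p =>
    {h | ∀ b ∈ K p p.1, (fun i => h (b i)) ∈ W p.1}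
  have hKcl : ∀ p n, IsClosed (K p n) := by
    intro p n
    have hop : ∀ i j : Fin (k n), IsClosed {b : Fin (k n) → (ℕ → Bool) | i ≠ j → ∃ l < p.2, b i l ≠ b j l} := by
      intro i j
      by_cases hij : i = j
      · have : {b : Fin (k n) → (ℕ → Bool) | i ≠ j → ∃ l < p.2, b i l ≠ b j l} = univ := by
          ext b; simp [hij]
        rw [this]; exact isClosed_univ
      · have : {b : Fin (k n) → (ℕ → Bool) | i ≠ j → ∃ l < p.2, b i l ≠ b j l} =
            ⋃ l ∈ Finset.range p.2, (fun b : Fin (k n) → (ℕ → Bool) => (b i l, b j l)) ⁻¹'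
              {r : Bool × Bool | r.1 ≠ r.2} := by
          ext b
          simp [hij]
        rw [this]
        apply isClosed_biUnion_finset
        intro l _
        exact (isClosed_discrete _).preimage
          (((continuous_apply l).comp (continuous_apply i)).prodMk
            ((continuous_apply l).comp (continuous_apply j)))
    have : K p n = ⋂ i, ⋂ j, {b : Fin (k n) → (ℕ → Bool) | i ≠ j → ∃ l < p.2, b i l ≠ b j l} := by
      ext b
      simp [K]
    rw [this]
    exact isClosed_iInter fun i => isClosed_iInter fun j => hop i j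
  have hOo : ∀ p, IsOpen (O p) := by
    intro p
    rw [isOpen_iff_mem_nhds]
    intro h hh
    have h1 : ∀ᶠ g in 𝓝 h, ∀ b ∈ K p p.1, (fun i => g (b i)) ∈ W p.1 := by
      apply (hKcl p p.1).isCompact.eventually_forall_of_forall_eventually
        (P := fun (g : C(ℕ → Bool, G)) (b : Fin (k p.1) → (ℕ → Bool)) => (fun i => g (b i)) ∈ W p.1)
      intro b hb
      have hc : Continuous (fun z : C(ℕ → Bool, G) × (Fin (k p.1) → (ℕ → Bool)) =>
          (fun i => z.1 (z.2 i))) := by
        apply continuous_pi
        intro i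
        exact continuous_fst.eval ((continuous_apply i).comp continuous_snd)
      exact hc.continuousAt.eventually ((hWo p.1).mem_nhds (hh b hb))
    exact h1
  have hOd : ∀ p, Dense (O p) := by
    intro p h0
    rw [Metric.mem_closure_iff]
    intro ε hε
    -- modulus of continuity
    have hN : ∃ N : ℕ, ∀ b b' : ℕ → Bool, (∀ i, i < N → b i = b' i) →
        dist (h0 b) (h0 b') < ε / 3 := by
      by_contra hc
      push Not at hc
      choose B B' hB1 hB2 using hc
      obtain ⟨b, _, φ, hφ, hlim⟩ := (isCompact_univ (X := ℕ → Bool)).tendsto_subseq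
        (x := B) (fun n => mem_univ _)
      have hlim' : Tendsto (B' ∘ φ) atTop (𝓝 b) := by
        rw [tendsto_pi_nhds] at hlim ⊢
        intro i
        refine (hlim i).congr' ?_
        filter_upwards [eventually_gt_atTop i] with k hk
        exact hB1 (φ k) i (lt_of_lt_of_le hk (hφ.id_le k))
      have h1 := (h0.continuous.tendsto b).comp hlim
      have h2 := (h0.continuous.tendsto b).comp hlim'
      have h3 := h1.dist h2
      rw [dist_self] at h3
      have h4 := ge_of_tendsto' h3 (fun k => hB2 (φ k))
      linarith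
    obtain ⟨N, hN⟩ := hN
    set M := max N (p.2 + 1) with hM
    let rep : (Fin M → Bool) → (ℕ → Bool) := fun s i => if h : i < M then s ⟨i, h⟩ else false
    obtain ⟨y, hy1, hy2⟩ := finite_choice (W p.1) (hWo _) (hWd _) (fun s => h0 (rep s)) (ε / 3)
      (by linarith)
    let res : (ℕ → Bool) → (Fin M → Bool) := fun b i => b i
    have hres : Continuous res := continuous_pi fun i => continuous_apply _
    refine ⟨⟨fun b => y (res b), (continuous_of_discreteTopology (f := y)).comp hres⟩, ?_, ?_⟩
    · intro b hb
      apply hy2 (fun i => res (b i))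
      intro i j hij
      by_contra hne
      obtain ⟨l, hl, hlne⟩ := hb i j hne
      apply hlne
      exact congrFun hij ⟨l, by omega⟩
    · rw [ContinuousMap.dist_lt_iff hε]
      intro b
      have h1 : dist (h0 b) (h0 (rep (res b))) < ε / 3 := by
        apply hN
        intro i hi
        have : i < M := lt_of_lt_of_le hi (le_max_left _ _)
        simp only [rep, dif_pos this, res]
      have h2 := hy1 (res b)
      calc dist (h0 b) (y (res b)) ≤ dist (h0 b) (h0 (rep (res b))) +
            dist (h0 (rep (res b))) (y (res b)) := dist_triangle _ _ _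
        _ < ε / 3 + ε / 3 := by
            rw [dist_comm (h0 (rep (res b))) (y (res b))]
            exact add_lt_add h1 h2
        _ < ε := by linarith
  have hne : Nonempty C(ℕ → Bool, G) := ⟨ContinuousMap.const _ (Classical.arbitrary G)⟩
  have hd := dense_iInter_of_isOpen hOo hOd
  obtain ⟨h, hh⟩ := hd.nonempty
  refine ⟨h, h.continuous, fun n b hb => ?_⟩
  have hsep : ∀ q : Fin (k n) × Fin (k n), ∃ l, q.1 ≠ q.2 → b q.1 l ≠ b q.2 l := by
    intro q
    by_cases hq : q.1 = q.2
    · exact ⟨0, fun h => absurd hq h⟩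
    · obtain ⟨l, hl⟩ := Function.ne_iff.1 (hb.ne hq)
      exact ⟨l, fun _ => hl⟩
  choose l hl using hsep
  refine mem_iInter.1 hh (n, Finset.univ.sup l + 1) b ?_
  intro i j hij
  exact ⟨l (i, j), Nat.lt_succ_of_le (Finset.le_sup (f := l) (Finset.mem_univ (i, j))), hl (i, j) hij⟩

theorem mycielski' {G : Type*} [TopologicalSpace G] [IsCompletelyMetrizableSpace G] [Nonempty G]
    (k : ℕ → ℕ) (W : ∀ n, Set (Fin (k n) → G)) (hWo : ∀ n, IsOpen (W n)) (hWd : ∀ n, Dense (W n)) :
    ∃ h : (ℕ → Bool) → G, Continuous h ∧
      ∀ n, ∀ b : Fin (k n) → (ℕ → Bool), Function.Injective b → (fun i => h (b i)) ∈ W n := by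
  let := upgradeIsCompletelyMetrizable G
  exact mycielski k W hWo hWd

end Pool.Agent.Q302.NH
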