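import Pool.Agent.Q302.NH.Myc

set_option autoImplicit false

/-!
Sets of size less than the continuum in uncountable commutative Polish groups are naively Haar null.
-/

namespace Pool.Agent.Q302.NH

open Set TopologicalSpace Filter Topology Cardinal MeasureTheory

abbrev X := ℕ → Bool

theorem perfect {G : Type*} [Group G] [TopologicalSpace G] [IsTopologicalGroup G]
    [SecondCountableTopology G] [Uncountable G] (g : G) : Dense ({g}ᶜ : Set G) := by
  rw [dense_compl_singleton_iff_not_open]
  intro h
  have h1 : ∀ x : G, IsOpen ({x} : Set G) := by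
    intro x
    have h2 : ({x} : Set G) = (fun y => (g * x⁻¹) * y) ⁻¹' {g} := by
      ext y
      simp only [mem_singleton_iff, mem_preimage]
      constructor
      · rintro rfl; group
      · intro h3
        have h4 : y = (g * x⁻¹)⁻¹ * (g * x⁻¹ * y) := by group
        rw [h4, h3]; group
    rw [h2]
    exact h.preimage (continuous_const.mul continuous_id)
  have hd : DiscreteTopology G := discreteTopology_iff_isOpen_singleton.2 h1
  have : Countable G := countable_of_Lindelof_of_discrete
  exact not_countable this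

theorem four (a b : X) : ∃ c d : X, a ≠ c ∧ a ≠ d ∧ b ≠ c ∧ b ≠ d ∧ c ≠ d := by
  classical
  obtain ⟨c, hc⟩ := Set.Infinite.exists_notMem_finset (Set.infinite_univ (α := X)) {a, b}
  obtain ⟨d, hd⟩ := Set.Infinite.exists_notMem_finset (Set.infinite_univ (α := X)) {a, b, c}
  simp only [Finset.mem_insert, Finset.mem_singleton, not_or, mem_univ, true_and] at hc hd
  exact ⟨c, d, Ne.symm hc.1, Ne.symm hd.1, Ne.symm hc.2, Ne.symm hd.2.1, Ne.symm hd.2.2⟩

theorem indep (G : Type*) [CommGroup G] [TopologicalSpace G] [IsTopologicalGroup G]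
    [PolishSpace G] [Uncountable G] :
    ∃ h : X → G, Continuous h ∧ Function.Injective h ∧
      ∀ a b c d : X, a ≠ b → a ≠ c → a ≠ d → b ≠ c → b ≠ d → c ≠ d →
        h a / h b ≠ h c / h d := by
  have hd2 : Dense {g : Fin 4 → G | g 0 ≠ g 1} := by
    have : {g : Fin 4 → G | g 0 ≠ g 1} = (fun g : Fin 4 → G => g 0 * (g 1)⁻¹) ⁻¹' {1}ᶜ := by
      ext g
      simp [mul_inv_eq_one]
    rw [this]
    apply (perfect (1 : G)).preimage
    -- open map
    intro U hU
    rw [isOpen_iff_mem_nhds]
    rintro _ ⟨g, hg, rfl⟩
    have h1 : Continuous (fun t : G => Function.update g 0 (t * g 1)) :=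
      continuous_const.update 0 (continuous_id.mul continuous_const)
    have h2 : (fun t : G => Function.update g 0 (t * g 1)) (g 0 * (g 1)⁻¹) ∈ U := by
      simpa using hg
    filter_upwards [h1.continuousAt.preimage_mem_nhds (hU.mem_nhds h2)] with t ht
    refine ⟨_, ht, ?_⟩
    simp
  have hd4 : Dense {g : Fin 4 → G | g 0 / g 1 ≠ g 2 / g 3} := by
    have : {g : Fin 4 → G | g 0 / g 1 ≠ g 2 / g 3} =
        (fun g : Fin 4 → G => (g 0 / g 1) / (g 2 / g 3)) ⁻¹' {1}ᶜ := by
      ext g
      simp [div_eq_one]
    rw [this]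
    apply (perfect (1 : G)).preimage
    intro U hU
    rw [isOpen_iff_mem_nhds]
    rintro _ ⟨g, hg, rfl⟩
    have h1 : Continuous (fun t : G => Function.update g 0 (t * (g 2 / g 3) * g 1)) := by
      apply continuous_const.update 0
      exact (continuous_id.mul continuous_const).mul continuous_const
    have h2 : (fun t : G => Function.update g 0 (t * (g 2 / g 3) * g 1))
        ((g 0 / g 1) / (g 2 / g 3)) ∈ U := by
      simpa using hg
    filter_upwards [h1.continuousAt.preimage_mem_nhds (hU.mem_nhds h2)] with t ht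
    refine ⟨_, ht, ?_⟩
    simp
  have ho2 : IsOpen {g : Fin 4 → G | g 0 ≠ g 1} :=
    isOpen_ne_fun (continuous_apply 0) (continuous_apply 1)
  have ho4 : IsOpen {g : Fin 4 → G | g 0 / g 1 ≠ g 2 / g 3} :=
    isOpen_ne_fun ((continuous_apply 0).div' (continuous_apply 1))
      ((continuous_apply 2).div' (continuous_apply 3))
  obtain ⟨h, hc, hh⟩ := mycielski' (G := G) (fun _ => 4)
    (fun _ => {g : Fin 4 → G | g 0 ≠ g 1} ∩ {g : Fin 4 → G | g 0 / g 1 ≠ g 2 / g 3})
    (fun _ => ho2.inter ho4) (fun _ => hd2.inter_of_isOpen_left hd4 ho2)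
  have key : ∀ a b c d : X, a ≠ b → a ≠ c → a ≠ d → b ≠ c → b ≠ d → c ≠ d →
      h a ≠ h b ∧ h a / h b ≠ h c / h d := by
    intro a b c d h1 h2 h3 h4 h5 h6
    have hinj : Function.Injective ![a, b, c, d] := by
      intro i j hij
      fin_cases i <;> fin_cases j <;> simp_all
    exact hh 0 ![a, b, c, d] hinj
  refine ⟨h, hc, ?_, fun a b c d h1 h2 h3 h4 h5 h6 => (key a b c d h1 h2 h3 h4 h5 h6).2⟩
  intro a b hab
  by_contra hne
  obtain ⟨c, d, h1, h2, h3, h4, h5⟩ := four a b
  exact (key a b c d hne h1 h2 h3 h4 h5).1 hab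

/-- merging two sequences -/
def mg (a x : X) : X := fun n => if n % 2 = 0 then a (n / 2) else x (n / 2)

theorem mg_inj {a x b y : X} (h : mg a x = mg b y) : a = b ∧ x = y := by
  constructor
  · funext n
    have := congrFun h (2 * n)
    simp only [mg] at this
    rw [if_pos (by omega), if_pos (by omega)] at this
    have e : 2 * n / 2 = n := by omega
    rwa [e] at this
  · funext n
    have := congrFun h (2 * n + 1)
    simp only [mg] at this
    rw [if_neg (by omega), if_neg (by omega)] at this
    have e : (2 * n + 1) / 2 = n := by omega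
    rwa [e] at this

theorem continuous_mg (a : X) : Continuous (mg a) := by
  apply continuous_pi
  intro n
  by_cases h : n % 2 = 0
  · have : (fun x : X => mg a x n) = fun _ => a (n / 2) := by
      funext x; simp [mg, h]
    rw [this]; exact continuous_const
  · have : (fun x : X => mg a x n) = fun x => x (n / 2) := by
      funext x; simp [mg, h]
    rw [this]; exact continuous_apply _

theorem mk_X : #X = 𝔠 := by simp

/-- an atomless probability measure on the Cantor space -/
theorem exists_atomless : ∃ ν : Measure X, IsProbabilityMeasure ν ∧ ∀ x, ν {x} = 0 := by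
  have h1 : ¬ Countable unitInterval := by
    intro h
    have h2 : #(unitInterval) ≤ ℵ₀ := mk_le_aleph0_iff.2 h
    have h3 : #(unitInterval) = 𝔠 := mk_Icc_real zero_lt_one
    rw [h3] at h2
    exact absurd h2 (not_le.2 aleph0_lt_continuum)
  have h2 : ¬ Countable X := by
    intro h
    have h2 : #X ≤ ℵ₀ := mk_le_aleph0_iff.2 h
    rw [mk_X] at h2
    exact absurd h2 (not_le.2 aleph0_lt_continuum)
  let e : unitInterval ≃ᵐ X := PolishSpace.measurableEquivOfNotCountable h1 h2
  refine ⟨(volume : Measure unitInterval).map e, ?_, ?_⟩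
  · exact Measure.isProbabilityMeasure_map e.measurable.aemeasurable
  · intro x
    rw [e.map_apply]
    have : e ⁻¹' {x} = {e.symm x} := by
      ext y
      simp only [mem_preimage, mem_singleton_iff]
      constructor
      · rintro rfl; simp
      · rintro rfl; simp
    rw [this]
    exact measure_singleton _

/-- Naively Haar null sets. -/
def NHN {H : Type*} [Group H] [MeasurableSpace H] (A : Set H) : Prop :=
  ∃ μ : Measure H, IsProbabilityMeasure μ ∧ ∀ g h : H, μ ((fun x => g * x * h) '' A) = 0

theorem small_measure (G : Type) [CommGroup G] [TopologicalSpace G] [IsTopologicalGroup G]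
    [PolishSpace G] [Uncountable G] [MeasurableSpace G] [BorelSpace G] (S : Set G) (hS : #S < 𝔠) :
    ∃ μ : Measure G, IsProbabilityMeasure μ ∧ ∀ g : G, μ ((fun x => g * x) '' S) = 0 := by
  obtain ⟨h, hc, hi, hh⟩ := indep G
  obtain ⟨ν, hν, hν0⟩ := exists_atomless
  -- the bad parameters
  let D : Set G := (fun p : S × S => (p.1 : G) / p.2) '' univ
  have hD : #D < 𝔠 := by
    refine mk_image_le.trans_lt ?_
    rw [mk_univ, mk_prod, lift_id]
    exact mul_lt_of_lt aleph0_le_continuum hS hS
  have hgood : ∃ a : X, ∀ x y : X, x ≠ y → h (mg a x) / h (mg a y) ∉ D := by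
    by_contra hcon
    push Not at hcon
    choose x y hxy hD' using hcon
    have hinj : Function.Injective (fun a => (⟨_, hD' a⟩ : D)) := by
      intro a b hab
      by_contra hne
      have h1 : h (mg a (x a)) / h (mg a (y a)) = h (mg b (x b)) / h (mg b (y b)) :=
        congrArg Subtype.val hab
      refine hh _ _ _ _ ?_ ?_ ?_ ?_ ?_ ?_ h1
      · exact fun e => hxy a (mg_inj e).2
      · exact fun e => hne (mg_inj e).1
      · exact fun e => hne (mg_inj e).1
      · exact fun e => hne (mg_inj e).1
      · exact fun e => hne (mg_inj e).1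
      · exact fun e => hxy b (mg_inj e).2
    have h2 := mk_le_of_injective hinj
    rw [mk_X] at h2
    exact absurd h2 (not_le.2 hD)
  obtain ⟨a, ha⟩ := hgood
  let F : X → G := fun x => h (mg a x)
  have hFc : Continuous F := hc.comp (continuous_mg a)
  have hFi : Function.Injective F := fun x y e => (mg_inj (hi e)).2
  refine ⟨ν.map F, Measure.isProbabilityMeasure_map hFc.measurable.aemeasurable, ?_⟩
  intro g
  by_cases hne : ∃ x, F x ∈ (fun x => g * x) '' S
  · obtain ⟨x, hx⟩ := hne
    -- the translate meets the range in one point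
    have hsub : (fun x => g * x) '' S ⊆ (range F)ᶜ ∪ {F x} := by
      rintro z ⟨s, hs, rfl⟩
      by_cases hz : g * s ∈ range F
      · right
        obtain ⟨y, hy⟩ := hz
        obtain ⟨s', hs', hx'⟩ := hx
        by_contra hne'
        have hyx : y ≠ x := by
          rintro rfl
          exact hne' hy.symm
        apply ha y x hyx
        refine ⟨(⟨s, hs⟩, ⟨s', hs'⟩), trivial, ?_⟩
        show s / s' = F y / F x
        rw [hy, ← hx']
        simp
      · exact Or.inl hz
    refine measure_mono_null hsub ?_
    have hm : MeasurableSet ((range F)ᶜ ∪ {F x}) :=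
      ((isCompact_range hFc).isClosed.measurableSet.compl).union (measurableSet_singleton _)
    rw [Measure.map_apply hFc.measurable hm]
    have : F ⁻¹' ((range F)ᶜ ∪ {F x}) = {x} := by
      ext y
      simp only [preimage_union, mem_union, mem_preimage, mem_compl_iff, mem_range, not_exists,
        mem_singleton_iff]
      constructor
      · rintro (h' | h')
        · exact absurd rfl (h' y)
        · exact hFi h'
      · rintro rfl; right; rfl
    rw [this]
    exact hν0 x
  · push Not at hne
    have hsub : (fun x => g * x) '' S ⊆ (range F)ᶜ := by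
      intro z hz hzr
      obtain ⟨x, rfl⟩ := hzr
      exact hne x hz
    refine measure_mono_null hsub ?_
    rw [Measure.map_apply hFc.measurable (isCompact_range hFc).isClosed.measurableSet.compl]
    have : F ⁻¹' (range F)ᶜ = ∅ := by
      ext y; simp
    rw [this, measure_empty]

theorem small_square (G : Type) [CommGroup G] [TopologicalSpace G] [IsTopologicalGroup G]
    [PolishSpace G] [Uncountable G] [MeasurableSpace G] [BorelSpace G] (S : Set G) (hS : #S < 𝔠) :
    NHN (S ×ˢ S) := by
  obtain ⟨μ, hμ, h0⟩ := small_measure G S hS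
  have hm : Measurable (fun x : G => (x, (1 : G))) := measurable_id.prodMk measurable_const
  refine ⟨μ.map (fun x => (x, 1)), Measure.isProbabilityMeasure_map hm.aemeasurable, ?_⟩
  · rintro ⟨g, g'⟩ ⟨h, h'⟩
    obtain ⟨N, hN1, hN2, hN3⟩ := exists_measurable_superset_of_null (h0 (g * h))
    have hsub : (fun x : G × G => (g, g') * x * (h, h')) '' (S ×ˢ S) ⊆ N ×ˢ (Set.univ : Set G) := by
      rintro _ ⟨⟨s, s'⟩, ⟨hs, hs'⟩, rfl⟩
      refine ⟨hN1 ⟨s, hs, ?_⟩, trivial⟩
      show g * h * s = g * s * h
      rw [mul_right_comm]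
    refine measure_mono_null hsub ?_
    rw [Measure.map_apply hm (hN2.prod MeasurableSet.univ)]
    have : (fun x : G => (x, (1 : G))) ⁻¹' (N ×ˢ (Set.univ : Set G)) = N := by
      ext x; simp
    rw [this, hN3]

theorem not_NHN_univ {H : Type*} [Group H] [MeasurableSpace H] : ¬ NHN (Set.univ : Set H) := by
  rintro ⟨μ, hμ, h⟩
  have h1 := h 1 1
  simp at h1

end Pool.Agent.Q302.NH
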